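import Mathlib

/-!
# Compensation functions on the unit ball versus the whole dual

We show that a compact Hausdorff space `K` admits a `B_{𝓜(K)}`-compensation function if and only
if it admits a compensation function on all of `𝓜(K)`, if and only if it is metrizable.

* From the unit ball to metrizability. Let `ξ` be a `B_{𝓜(K)}`-compensation function. For
  `x ≠ y` the compensation of `(δ_x + δ_y - δ_z) / 3` has the form `(φ δ_x + (1 - φ) δ_y) / 3`
  with `φ = φ(x, y, z)` depending continuously on `(x, y, z)`, `φ(x, y, x) = 0` and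
  `φ(x, y, y) = 1`. A closing-off argument (`metrizable_of_family`) then produces countably many
  continuous functions separating the points of `K`.
* From metrizability to a compensation function. Take a refining sequence of finite partitions of
  unity, form their products `φ_s` along the branches of a tree, and split the mass
  `max (μ(K), 0)` recursively: the share of a child is proportional to `max (∫ φ_s dμ, 0)`.
-/

open MeasureTheory TopologicalSpace Set Filter Topology

set_option linter.unusedSectionVars false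

namespace Pool.Agent.Results.MP_f97503_an.BallCompensation

section Defs

variable (K : Type*) [TopologicalSpace K] [MeasurableSpace K]

/-- `𝓜(K)`: the space of regular signed Borel measures on `K`. -/
def RegSignedMeasure : Type _ := {μ : SignedMeasure K // μ.totalVariation.Regular}

variable {K}

/-- The duality pairing `⟨μ, f⟩ = ∫ f dμ = ∫ f dμ⁺ - ∫ f dμ⁻` between `𝓜(K)` and `C(K)`. -/
noncomputable def pairing (μ : RegSignedMeasure K) (f : C(K, ℝ)) : ℝ :=
  ∫ x, f x ∂μ.1.toJordanDecomposition.posPart - ∫ x, f x ∂μ.1.toJordanDecomposition.negPart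

/-- The weak* topology `σ(𝓜(K), C(K))`: the coarsest topology for which all the maps
`μ ↦ ∫ f dμ`, `f ∈ C(K)`, are continuous. -/
noncomputable instance weakStarTopology : TopologicalSpace (RegSignedMeasure K) :=
  TopologicalSpace.induced (fun (μ : RegSignedMeasure K) (f : C(K, ℝ)) => pairing μ f)
    Pi.topologicalSpace

variable (K) in
/-- The closed unit ball of `𝓜(K)` for the total variation norm. -/
def unitBall : Set (RegSignedMeasure K) := {μ | μ.1.totalVariation univ ≤ 1}

/-- `ν` is a compensation of `μ`: either `μ(K) > 0`, `0 ≤ ν ≤ μ⁺` and `ν(K) = μ(K)`, or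
`μ(K) ≤ 0` and `ν = 0`. -/
def IsCompensation (ν μ : RegSignedMeasure K) : Prop :=
  (0 < μ.1 univ ∧ 0 ≤ ν.1 ∧ ν.1 ≤ μ.1.toJordanDecomposition.posPart.toSignedMeasure ∧
      ν.1 univ = μ.1 univ) ∨
    (μ.1 univ ≤ 0 ∧ ν.1 = 0)

/-- There is an `M`-compensation function: a weak*-to-weak* continuous map `ξ : M → 𝓜(K)` such
that `ξ(μ)` is a compensation of `μ` for every `μ ∈ M`. -/
def AdmitsCompensation (M : Set (RegSignedMeasure K)) : Prop :=
  ∃ ξ : M → RegSignedMeasure K, Continuous ξ ∧ ∀ μ : M, IsCompensation (ξ μ) μ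

end Defs

section Pairing

variable {K : Type*} [TopologicalSpace K] [CompactSpace K] [MeasurableSpace K] [BorelSpace K]

theorem continuous_pairing (f : C(K, ℝ)) : Continuous fun μ : RegSignedMeasure K => pairing μ f := by
  have h : Continuous (fun (μ : RegSignedMeasure K) (f : C(K, ℝ)) => pairing μ f) :=
    continuous_induced_dom
  exact (continuous_apply f).comp h

theorem continuous_of_pairing {X : Type*} [TopologicalSpace X] {ξ : X → RegSignedMeasure K}
    (h : ∀ f : C(K, ℝ), Continuous fun x => pairing (ξ x) f) : Continuous ξ :=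
  continuous_induced_rng.2 (continuous_pi h)

theorem integrable_cont (m : Measure K) [IsFiniteMeasure m] (f : C(K, ℝ)) : Integrable f m :=
  (BoundedContinuousFunction.mkOfCompact f).integrable m

theorem pairing_add (μ : RegSignedMeasure K) (f g : C(K, ℝ)) :
    pairing μ (f + g) = pairing μ f + pairing μ g := by
  unfold pairing
  simp only [ContinuousMap.add_apply]
  rw [integral_add (integrable_cont _ f) (integrable_cont _ g),
    integral_add (integrable_cont _ f) (integrable_cont _ g)]
  ring

theorem pairing_zero (μ : RegSignedMeasure K) : pairing μ 0 = 0 := by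
  simp [pairing]

theorem pairing_sum (μ : RegSignedMeasure K) {ι : Type*} (s : Finset ι) (f : ι → C(K, ℝ)) :
    pairing μ (∑ i ∈ s, f i) = ∑ i ∈ s, pairing μ (f i) := by
  classical
  induction s using Finset.induction_on with
  | empty => simp [pairing_zero]
  | insert a s ha ih => rw [Finset.sum_insert ha, Finset.sum_insert ha, pairing_add, ih]

theorem pairing_one (μ : RegSignedMeasure K) : pairing μ 1 = μ.1 univ := by
  rw [μ.1.apply_eq_posPart_real_sub_negPart_real MeasurableSet.univ]
  simp [pairing]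

theorem pairing_le (μ : RegSignedMeasure K) (f : C(K, ℝ)) (hf : ∀ x, 0 ≤ f x) :
    pairing μ f ≤ ∫ x, f x ∂μ.1.toJordanDecomposition.posPart := by
  have : 0 ≤ ∫ x, f x ∂μ.1.toJordanDecomposition.negPart := integral_nonneg fun x => hf x
  unfold pairing
  linarith

end Pairing

section Tree

variable {K : Type*} [TopologicalSpace K]

/-- Index set of the `n`-th level of the tree. -/
def S (N : ℕ → ℕ) : ℕ → Type
  | 0 => Unit
  | n + 1 => S N n × Fin (N n)

instance instFintypeS (N : ℕ → ℕ) : (n : ℕ) → Fintype (S N n)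
  | 0 => inferInstanceAs (Fintype Unit)
  | n + 1 => by
    haveI := instFintypeS N n
    exact inferInstanceAs (Fintype (S N n × Fin (N n)))

/-- products of functions along branches -/
def phi {N : ℕ → ℕ} (g : (n : ℕ) → Fin (N n) → C(K, ℝ)) : (n : ℕ) → S N n → C(K, ℝ)
  | 0, _ => 1
  | n + 1, s => phi g n s.1 * g n s.2

/-- weights of the compensation along branches; `I` stands for integration against `μ` -/
noncomputable def w {N : ℕ → ℕ} (g : (n : ℕ) → Fin (N n) → C(K, ℝ)) (I : C(K, ℝ) → ℝ) :
    (n : ℕ) → S N n → ℝ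
  | 0, _ => max (I 1) 0
  | n + 1, s => w g I n s.1 * max (I (phi g n s.1 * g n s.2)) 0 /
      ∑ j, max (I (phi g n s.1 * g n j)) 0

/-- ancestor map -/
def anc (N : ℕ → ℕ) (n : ℕ) : (k : ℕ) → S N (n + k) → S N n
  | 0, s => s
  | k + 1, s => anc N n k s.1

theorem sum_S_succ {N : ℕ → ℕ} (n : ℕ) (F : S N (n + 1) → ℝ) :
    ∑ s : S N (n + 1), F s = ∑ s : S N n, ∑ i : Fin (N n), F (s, i) :=
  Fintype.sum_prod_type F

variable {N : ℕ → ℕ} (g : (n : ℕ) → Fin (N n) → C(K, ℝ)) (I : C(K, ℝ) → ℝ)

theorem w_nonneg (n : ℕ) (s : S N n) : 0 ≤ w g I n s := by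
  induction n with
  | zero => exact le_max_right _ _
  | succ n ih =>
    exact div_nonneg (mul_nonneg (ih _) (le_max_right _ _))
      (Finset.sum_nonneg fun j _ => le_max_right _ _)

/-- hypotheses on the integration functional `I` and the partitions of unity -/
structure Good : Prop where
  sum_g : ∀ n, ∑ i, g n i = 1
  g_nonneg : ∀ n i x, 0 ≤ g n i x
  I_sum : ∀ (n : ℕ) (F : Fin (N n) → C(K, ℝ)), I (∑ i, F i) = ∑ i, I (F i)

variable {g I}

theorem Good.max_le (h : Good g I) (n : ℕ) (s : S N n) :
    max (I (phi g n s)) 0 ≤ ∑ j, max (I (phi g n s * g n j)) 0 := by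
  have h1 : phi g n s = ∑ j, phi g n s * g n j := by
    rw [← Finset.mul_sum, h.sum_g, mul_one]
  apply _root_.max_le
  · calc I (phi g n s) = ∑ j, I (phi g n s * g n j) := by rw [← h.I_sum, ← h1]
      _ ≤ _ := Finset.sum_le_sum fun j _ => le_max_left _ _
  · exact Finset.sum_nonneg fun j _ => le_max_right _ _

theorem Good.w_le (h : Good g I) (n : ℕ) (s : S N n) : w g I n s ≤ max (I (phi g n s)) 0 := by
  induction n with
  | zero => exact le_rfl
  | succ n ih =>
    have h1 := ih s.1
    have h2 := h.max_le n s.1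
    show w g I n s.1 * max (I (phi g n s.1 * g n s.2)) 0 /
      ∑ j, max (I (phi g n s.1 * g n j)) 0 ≤ max (I (phi g n s.1 * g n s.2)) 0
    have hD : 0 ≤ ∑ j, max (I (phi g n s.1 * g n j)) 0 :=
      Finset.sum_nonneg fun j _ => le_max_right _ _
    have hB : 0 ≤ max (I (phi g n s.1 * g n s.2)) 0 := le_max_right _ _
    rcases hD.eq_or_lt with h0 | h0
    · rw [← h0, div_zero]; exact hB
    · rw [div_le_iff₀ h0, mul_comm]
      exact mul_le_mul_of_nonneg_left (h1.trans h2) hB

theorem Good.sum_w (h : Good g I) (n : ℕ) (s : S N n) :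
    ∑ i, w g I (n + 1) (s, i) = w g I n s := by
  show ∑ i, w g I n s * max (I (phi g n s * g n i)) 0 /
      ∑ j, max (I (phi g n s * g n j)) 0 = w g I n s
  rw [← Finset.sum_div, ← Finset.mul_sum]
  have hD : 0 ≤ ∑ j, max (I (phi g n s * g n j)) 0 :=
    Finset.sum_nonneg fun j _ => le_max_right _ _
  rcases hD.eq_or_lt with h0 | h0
  · rw [← h0, div_zero]
    exact le_antisymm (w_nonneg g I n s) (((h.w_le n s).trans (h.max_le n s)).trans h0.symm.le)
  · rw [mul_div_assoc, div_self h0.ne', mul_one]

theorem Good.w_succ_le (h : Good g I) (n : ℕ) (s : S N n) (i : Fin (N n)) :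
    w g I (n + 1) (s, i) ≤ w g I n s := by
  rw [← h.sum_w n s]
  exact Finset.single_le_sum (f := fun i => w g I (n + 1) (s, i))
    (fun j _ => w_nonneg g I (n + 1) (s, j)) (Finset.mem_univ i)

theorem Good.sum_anc (h : Good g I) (n k : ℕ) (F : S N n → ℝ) :
    ∑ s : S N (n + k), w g I (n + k) s * F (anc N n k s) = ∑ t : S N n, w g I n t * F t := by
  induction k with
  | zero => rfl
  | succ k ih =>
    rw [← ih]
    show ∑ s : S N ((n + k) + 1), w g I ((n + k) + 1) s * F (anc N n (k + 1) s) = _
    rw [sum_S_succ]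
    refine Finset.sum_congr rfl fun s _ => ?_
    show ∑ i, w g I ((n + k) + 1) (s, i) * F (anc N n k s) = _
    rw [← Finset.sum_mul, h.sum_w]

theorem Good.sum_w_total (h : Good g I) (n : ℕ) : ∑ s : S N n, w g I n s = max (I 1) 0 := by
  induction n with
  | zero => 
    show ∑ _s : Unit, max (I 1) 0 = max (I 1) 0
    simp
  | succ n ih =>
    rw [sum_S_succ, ← ih]
    exact Finset.sum_congr rfl fun s _ => h.sum_w n s

theorem Good.phi_nonneg (h : Good g I) (n : ℕ) (s : S N n) (x : K) : 0 ≤ phi g n s x := by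
  induction n with
  | zero => exact zero_le_one
  | succ n ih => exact mul_nonneg (ih s.1) (h.g_nonneg n s.2 x)

theorem Good.sum_phi (h : Good g I) (n : ℕ) : ∑ s : S N n, phi g n s = 1 := by
  induction n with
  | zero => 
    show ∑ _s : Unit, (1 : C(K, ℝ)) = 1
    simp
  | succ n ih =>
    rw [← ih]
    have : ∑ s : S N (n + 1), phi g (n + 1) s
        = ∑ s : S N n, ∑ i : Fin (N n), phi g n s * g n i := 
      Fintype.sum_prod_type _
    rw [this]
    refine Finset.sum_congr rfl fun s _ => ?_
    rw [← Finset.mul_sum, h.sum_g, mul_one]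

theorem phi_anc (n k : ℕ) (s : S N (n + k)) (x : K) (hx : phi g (n + k) s x ≠ 0) :
    phi g n (anc N n k s) x ≠ 0 := by
  induction k with
  | zero => exact hx
  | succ k ih =>
    apply ih s.1
    intro h0
    apply hx
    show phi g (n + k) s.1 x * g (n + k) s.2 x = 0
    rw [h0, zero_mul]

theorem Good.w_eq_zero (h : Good g I) (n : ℕ) (s : S N n) (hI : I 0 = 0)
    (hs : ∀ x, phi g n s x = 0) : w g I n s = 0 := by
  have h1 : phi g n s = 0 := by ext x; exact hs x
  have h2 := h.w_le n s
  rw [h1, hI, max_self] at h2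
  exact le_antisymm h2 (w_nonneg g I n s)

variable (g) in
/-- a point of the support of `phi g n s`, if there is one -/
noncomputable def pt [Nonempty K] (n : ℕ) (s : S N n) : K :=
  Classical.epsilon fun x => phi g n s x ≠ 0

theorem pt_spec [Nonempty K] {n : ℕ} {s : S N n} {x : K} (hx : phi g n s x ≠ 0) :
    phi g n s (pt g n s) ≠ 0 :=
  Classical.epsilon_spec (p := fun x => phi g n s x ≠ 0) ⟨x, hx⟩

variable (g I) in
/-- discrete approximations of the compensation -/
noncomputable def E [Nonempty K] (n : ℕ) (f : C(K, ℝ)) : ℝ :=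
  ∑ s : S N n, w g I n s * f (pt g n s)

variable (g) in
/-- the function `f` oscillates by at most `ω` on the supports of the functions of level `n` -/
def Osc (n : ℕ) (f : C(K, ℝ)) (ω : ℝ) : Prop :=
  ∀ t : S N n, ∀ x y, phi g n t x ≠ 0 → phi g n t y ≠ 0 → |f x - f y| ≤ ω

theorem Good.E_sub_le [Nonempty K] (h : Good g I) (hI : I 0 = 0) (n k : ℕ) (f : C(K, ℝ)) (ω : ℝ)
    (hf : Osc g n f ω) : |E g I (n + k) f - E g I n f| ≤ max (I 1) 0 * ω := by
  have h1 : E g I n f = ∑ s : S N (n + k), w g I (n + k) s * f (pt g n (anc N n k s)) :=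
    (h.sum_anc n k fun t => f (pt g n t)).symm
  rw [h1, E, ← Finset.sum_sub_distrib, ← h.sum_w_total (n + k), Finset.sum_mul]
  refine (Finset.abs_sum_le_sum_abs _ _).trans (Finset.sum_le_sum fun s _ => ?_)
  rw [← mul_sub, abs_mul, abs_of_nonneg (w_nonneg g I _ _)]
  by_cases hs : ∀ x, phi g (n + k) s x = 0
  · rw [h.w_eq_zero _ _ hI hs]; simp
  · push Not at hs
    obtain ⟨x, hx⟩ := hs
    have hp := pt_spec hx
    have hq := phi_anc n k s _ hp
    exact mul_le_mul_of_nonneg_left (hf _ _ _ hq (pt_spec hq)) (w_nonneg g I _ _)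

theorem E_add [Nonempty K] (n : ℕ) (f₁ f₂ : C(K, ℝ)) :
    E g I n (f₁ + f₂) = E g I n f₁ + E g I n f₂ := by
  simp [E, mul_add, Finset.sum_add_distrib]

theorem E_smul [Nonempty K] (n : ℕ) (c : ℝ) (f : C(K, ℝ)) :
    E g I n (c • f) = c * E g I n f := by
  simp only [E, Finset.mul_sum, ContinuousMap.smul_apply, smul_eq_mul]
  exact Finset.sum_congr rfl fun s _ => by ring

theorem E_nonneg [Nonempty K] (n : ℕ) (f : C(K, ℝ)) (hf : ∀ x, 0 ≤ f x) : 0 ≤ E g I n f :=
  Finset.sum_nonneg fun s _ => mul_nonneg (w_nonneg g I _ _) (hf _)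

theorem Good.E_one [Nonempty K] (h : Good g I) (n : ℕ) : E g I n 1 = max (I 1) 0 := by
  rw [← h.sum_w_total n]
  simp [E]

variable (g) in
/-- the partitions of unity get finer and finer -/
def Fine : Prop := ∀ (f : C(K, ℝ)) (ω : ℝ), 0 < ω → ∃ n₀, ∀ n ≥ n₀, Osc g n f ω

theorem Good.cauchySeq [Nonempty K] (h : Good g I) (hI : I 0 = 0) (hg : Fine g) (f : C(K, ℝ)) :
    CauchySeq fun n => E g I n f := by
  rw [Metric.cauchySeq_iff']
  intro ε hε
  have hC : 0 < max (I 1) 0 + 1 := by positivity
  obtain ⟨n₀, hn₀⟩ := hg f (ε / (2 * (max (I 1) 0 + 1))) (by positivity)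
  refine ⟨n₀, fun n hn => ?_⟩
  obtain ⟨k, rfl⟩ := Nat.exists_eq_add_of_le hn
  rw [Real.dist_eq]
  refine (h.E_sub_le hI n₀ k f _ (hn₀ n₀ le_rfl)).trans_lt ?_
  rw [← mul_div_assoc, div_lt_iff₀ (by positivity)]
  nlinarith [le_max_right (I 1) 0]

variable (g I) in
/-- the compensation, as a functional on `C(K)` -/
noncomputable def Lam [Nonempty K] (f : C(K, ℝ)) : ℝ := limUnder atTop fun n => E g I n f

theorem Good.tendsto [Nonempty K] (h : Good g I) (hI : I 0 = 0) (hg : Fine g) (f : C(K, ℝ)) :
    Tendsto (fun n => E g I n f) atTop (𝓝 (Lam g I f)) :=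
  (h.cauchySeq hI hg f).tendsto_limUnder

theorem Good.Lam_sub_le [Nonempty K] (h : Good g I) (hI : I 0 = 0) (hg : Fine g) (n : ℕ)
    (f : C(K, ℝ)) (ω : ℝ) (hf : Osc g n f ω) :
    |Lam g I f - E g I n f| ≤ max (I 1) 0 * ω := by
  have h1 : Tendsto (fun k => |E g I (n + k) f - E g I n f|) atTop
      (𝓝 |Lam g I f - E g I n f|) := by
    have h2 := h.tendsto hI hg f
    have h3 : Tendsto (fun k => n + k) atTop atTop :=
      (tendsto_add_atTop_nat n).congr fun k => add_comm k n
    exact ((h2.comp h3).sub_const _).abs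
  exact le_of_tendsto' h1 fun k => h.E_sub_le hI n k f ω hf

end Tree

section Construction

variable {K : Type*} [TopologicalSpace K] [CompactSpace K] [T2Space K]

theorem exists_fine [MetrizableSpace K] :
    ∃ (N : ℕ → ℕ) (g : (n : ℕ) → Fin (N n) → C(K, ℝ)), (∀ n, ∑ i, g n i = 1) ∧
      (∀ n i x, 0 ≤ g n i x) ∧ Fine g := by
  let _ := metrizableSpaceMetric K
  have key : ∀ n : ℕ, ∃ (m : ℕ) (g : Fin m → C(K, ℝ)), ∑ i, g i = 1 ∧ (∀ i x, 0 ≤ g i x) ∧
      ∀ i x y, g i x ≠ 0 → g i y ≠ 0 → dist x y < 2 / ((n : ℝ) + 1) := by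
    intro n
    have hr : (0 : ℝ) < 1 / ((n : ℝ) + 1) := by positivity
    obtain ⟨t, -, ht, hcov⟩ := (isCompact_univ (X := K)).finite_cover_balls hr
    obtain ⟨m, e⟩ : ∃ m, Nonempty (Fin m ≃ t) := by
      have := ht.fintype
      exact ⟨Fintype.card t, ⟨(Fintype.equivFin t).symm⟩⟩
    obtain ⟨e⟩ := e
    have hcov' : (univ : Set K) ⊆ ⋃ i : Fin m, Metric.ball ((e i : t) : K) (1 / ((n : ℝ) + 1)) := by
      intro x hx
      obtain ⟨c, hc, hxc⟩ := mem_iUnion₂.1 (hcov hx)
      exact mem_iUnion.2 ⟨e.symm ⟨c, hc⟩, by simpa using hxc⟩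
    obtain ⟨g, hg1, hg2, hg3, -⟩ := exists_continuous_sum_one_of_isOpen_isCompact
      (fun i : Fin m => Metric.isOpen_ball (x := ((e i : t) : K)) (ε := 1 / ((n : ℝ) + 1)))
      isCompact_univ hcov'
    refine ⟨m, g, ?_, fun i x => (hg3 i x).1, fun i x y hx hy => ?_⟩
    · ext x
      simpa using hg2 (mem_univ x)
    · have h1 := hg1 i (subset_tsupport _ (Function.mem_support.2 hx))
      have h2 := hg1 i (subset_tsupport _ (Function.mem_support.2 hy))
      rw [Metric.mem_ball] at h1 h2
      calc dist x y ≤ dist x (e i : K) + dist y (e i : K) := dist_triangle_right _ _ _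
        _ < 1 / ((n : ℝ) + 1) + 1 / ((n : ℝ) + 1) := add_lt_add h1 h2
        _ = 2 / ((n : ℝ) + 1) := by ring
  choose N g h1 h2 h3 using key
  refine ⟨N, g, h1, h2, fun f ω hω => ?_⟩
  obtain ⟨δ, hδ, hf⟩ := Metric.uniformContinuous_iff.1
    (CompactSpace.uniformContinuous_of_continuous f.continuous) ω hω
  obtain ⟨n₀, hn₀⟩ := exists_nat_gt (2 / δ)
  refine ⟨n₀ + 1, fun n hn => ?_⟩
  obtain ⟨m, rfl⟩ : ∃ m, n = m + 1 := ⟨n - 1, by omega⟩
  intro t x y hx hy
  have hx' : g m t.2 x ≠ 0 := by
    intro h0; apply hx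
    show phi g m t.1 x * g m t.2 x = 0
    rw [h0, mul_zero]
  have hy' : g m t.2 y ≠ 0 := by
    intro h0; apply hy
    show phi g m t.1 y * g m t.2 y = 0
    rw [h0, mul_zero]
  have hm : (n₀ : ℝ) ≤ m := by exact_mod_cast (by omega : n₀ ≤ m)
  have h4 : 2 / ((m : ℝ) + 1) ≤ δ := by
    rw [div_lt_iff₀ hδ] at hn₀
    rw [div_le_iff₀ (by positivity)]
    nlinarith
  have h5 := hf ((h3 m t.2 x y hx' hy').trans_le h4)
  rw [Real.dist_eq] at h5
  exact h5.le

variable [MeasurableSpace K] [BorelSpace K]
variable {N : ℕ → ℕ} {g : (n : ℕ) → Fin (N n) → C(K, ℝ)}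

theorem good_pairing (h1 : ∀ n, ∑ i, g n i = 1) (h2 : ∀ n i x, 0 ≤ g n i x)
    (μ : RegSignedMeasure K) : Good g (pairing μ) :=
  ⟨h1, h2, fun _ F => pairing_sum μ _ F⟩

theorem continuous_w (h1 : ∀ n, ∑ i, g n i = 1) (h2 : ∀ n i x, 0 ≤ g n i x) (n : ℕ) (s : S N n) :
    Continuous fun μ : RegSignedMeasure K => w g (pairing μ) n s := by
  induction n with
  | zero => exact (continuous_pairing _).max continuous_const
  | succ n ih =>
    have hA := ih s.1
    have hB : ∀ j, Continuous fun μ : RegSignedMeasure K =>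
        max (pairing μ (phi g n s.1 * g n j)) 0 :=
      fun j => (continuous_pairing _).max continuous_const
    have hD : Continuous fun μ : RegSignedMeasure K =>
        ∑ j, max (pairing μ (phi g n s.1 * g n j)) 0 :=
      continuous_finsetSum _ fun j _ => hB j
    rw [continuous_iff_continuousAt]
    intro μ₀
    by_cases h0 : ∑ j, max (pairing μ₀ (phi g n s.1 * g n j)) 0 = 0
    · have hg0 := good_pairing h1 h2 μ₀
      have hw0 : w g (pairing μ₀) n s.1 = 0 :=
        le_antisymm (((hg0.w_le n s.1).trans (hg0.max_le n s.1)).trans h0.le)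
          (w_nonneg g _ n s.1)
      have hw1 : w g (pairing μ₀) (n + 1) s = 0 :=
        le_antisymm ((hg0.w_succ_le n s.1 s.2).trans hw0.le) (w_nonneg g _ _ _)
      rw [ContinuousAt, hw1]
      refine squeeze_zero (fun μ => w_nonneg g _ _ _)
        (fun μ => (good_pairing h1 h2 μ).w_succ_le n s.1 s.2) ?_
      have := hA.continuousAt (x := μ₀)
      rwa [ContinuousAt, hw0] at this
    · exact (hA.continuousAt.mul (hB s.2).continuousAt).div hD.continuousAt h0

variable [Nonempty K]

theorem continuous_E (h1 : ∀ n, ∑ i, g n i = 1) (h2 : ∀ n i x, 0 ≤ g n i x) (n : ℕ)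
    (f : C(K, ℝ)) : Continuous fun μ : RegSignedMeasure K => E g (pairing μ) n f :=
  continuous_finsetSum _ fun s _ => (continuous_w h1 h2 n s).mul continuous_const

theorem continuous_Lam (h1 : ∀ n, ∑ i, g n i = 1) (h2 : ∀ n i x, 0 ≤ g n i x) (hg : Fine g)
    (f : C(K, ℝ)) : Continuous fun μ : RegSignedMeasure K => Lam g (pairing μ) f := by
  have hu : TendstoLocallyUniformly (fun n (μ : RegSignedMeasure K) => E g (pairing μ) n f)
      (fun μ => Lam g (pairing μ) f) atTop := by
    rw [Metric.tendstoLocallyUniformly_iff]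
    intro ε hε μ₀
    set C := max (pairing μ₀ 1) 0 + 1 with hC
    have hCpos : 0 < C := by positivity
    have hcont : Continuous fun μ : RegSignedMeasure K => max (pairing μ 1) 0 :=
      (continuous_pairing _).max continuous_const
    refine ⟨{μ | max (pairing μ 1) 0 < C}, ?_, ?_⟩
    · exact (isOpen_lt hcont continuous_const).mem_nhds
        (show max (pairing μ₀ 1) 0 < C by rw [hC]; exact lt_add_one _)
    · obtain ⟨n₀, hn₀⟩ := hg f (ε / (2 * C)) (by positivity)
      filter_upwards [eventually_ge_atTop n₀] with n hn μ hμ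
      rw [Real.dist_eq]
      refine ((good_pairing h1 h2 μ).Lam_sub_le (pairing_zero μ) hg n f _ (hn₀ n hn)).trans_lt ?_
      have h3 : max (pairing μ 1) 0 < C := hμ
      rw [← mul_div_assoc, div_lt_iff₀ (by positivity)]
      nlinarith [le_max_right (pairing μ 1) 0]
  exact hu.continuous (Frequently.of_forall fun n => continuous_E h1 h2 n f)

theorem Lam_add (h1 : ∀ n, ∑ i, g n i = 1) (h2 : ∀ n i x, 0 ≤ g n i x) (hg : Fine g)
    (μ : RegSignedMeasure K) (f₁ f₂ : C(K, ℝ)) :
    Lam g (pairing μ) (f₁ + f₂) = Lam g (pairing μ) f₁ + Lam g (pairing μ) f₂ := by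
  have hG := good_pairing h1 h2 μ
  refine tendsto_nhds_unique (hG.tendsto (pairing_zero μ) hg (f₁ + f₂)) ?_
  simp only [E_add]
  exact (hG.tendsto (pairing_zero μ) hg f₁).add (hG.tendsto (pairing_zero μ) hg f₂)

theorem Lam_smul (h1 : ∀ n, ∑ i, g n i = 1) (h2 : ∀ n i x, 0 ≤ g n i x) (hg : Fine g)
    (μ : RegSignedMeasure K) (c : ℝ) (f : C(K, ℝ)) :
    Lam g (pairing μ) (c • f) = c * Lam g (pairing μ) f := by
  have hG := good_pairing h1 h2 μ
  refine tendsto_nhds_unique (hG.tendsto (pairing_zero μ) hg (c • f)) ?_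
  simp only [E_smul]
  exact (hG.tendsto (pairing_zero μ) hg f).const_mul c

theorem Lam_nonneg (h1 : ∀ n, ∑ i, g n i = 1) (h2 : ∀ n i x, 0 ≤ g n i x) (hg : Fine g)
    (μ : RegSignedMeasure K) (f : C(K, ℝ)) (hf : ∀ x, 0 ≤ f x) : 0 ≤ Lam g (pairing μ) f :=
  ge_of_tendsto' ((good_pairing h1 h2 μ).tendsto (pairing_zero μ) hg f) fun n => E_nonneg n f hf

theorem Lam_one (h1 : ∀ n, ∑ i, g n i = 1) (h2 : ∀ n i x, 0 ≤ g n i x) (hg : Fine g)
    (μ : RegSignedMeasure K) : Lam g (pairing μ) 1 = max (pairing μ 1) 0 := by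
  have hG := good_pairing h1 h2 μ
  refine tendsto_nhds_unique (hG.tendsto (pairing_zero μ) hg 1) ?_
  simp only [hG.E_one]
  exact tendsto_const_nhds

theorem Lam_le (h1 : ∀ n, ∑ i, g n i = 1) (h2 : ∀ n i x, 0 ≤ g n i x) (hg : Fine g)
    (μ : RegSignedMeasure K) (f : C(K, ℝ)) (hf : ∀ x, 0 ≤ f x) :
    Lam g (pairing μ) f ≤ ∫ x, f x ∂μ.1.toJordanDecomposition.posPart := by
  have hG := good_pairing h1 h2 μ
  set m := μ.1.toJordanDecomposition.posPart with hm
  have key : ∀ ω : ℝ, 0 < ω → Lam g (pairing μ) f ≤ ∫ x, f x ∂m + ω * m.real univ := by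
    intro ω hω
    obtain ⟨n₀, hn₀⟩ := hg f ω hω
    refine le_of_tendsto (hG.tendsto (pairing_zero μ) hg f) ?_
    filter_upwards [eventually_ge_atTop n₀] with n hn
    have h3 : ∀ s : S N n, w g (pairing μ) n s ≤ ∫ x, phi g n s x ∂m := by
      intro s
      refine (hG.w_le n s).trans (max_le (pairing_le μ _ (hG.phi_nonneg n s)) ?_)
      exact integral_nonneg fun x => hG.phi_nonneg n s x
    calc E g (pairing μ) n f ≤ ∑ s : S N n, (∫ x, phi g n s x ∂m) * f (pt g n s) :=
          Finset.sum_le_sum fun s _ => mul_le_mul_of_nonneg_right (h3 s) (hf _)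
      _ = ∫ x, ∑ s : S N n, phi g n s x * f (pt g n s) ∂m := by
          rw [integral_finsetSum]
          · exact Finset.sum_congr rfl fun s _ => (integral_mul_const _ _).symm
          · exact fun s _ => (integrable_cont m _).mul_const _
      _ ≤ ∫ x, (f x + ω) ∂m := by
          refine integral_mono ?_ ((integrable_cont m f).add (integrable_const ω)) ?_
          · exact integrable_finsetSum _ fun s _ => (integrable_cont m _).mul_const _
          · intro x
            have h4 : ∑ s : S N n, phi g n s x = 1 := by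
              have := congrArg (fun F : C(K, ℝ) => F x) (hG.sum_phi n)
              simpa using this
            calc ∑ s : S N n, phi g n s x * f (pt g n s)
                ≤ ∑ s : S N n, phi g n s x * (f x + ω) := by
                  refine Finset.sum_le_sum fun s _ => ?_
                  by_cases h5 : phi g n s x = 0
                  · rw [h5]; simp
                  · refine mul_le_mul_of_nonneg_left ?_ (hG.phi_nonneg n s x)
                    have := hn₀ n hn s _ _ (pt_spec h5) h5
                    linarith [le_abs_self (f (pt g n s) - f x)]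
              _ = f x + ω := by rw [← Finset.sum_mul, h4, one_mul]
      _ = ∫ x, f x ∂m + ω * m.real univ := by
          rw [integral_add (integrable_cont m f) (integrable_const ω)]
          simp [mul_comm]
  refine le_of_forall_pos_le_add fun ε hε => ?_
  have hM : 0 ≤ m.real univ := measureReal_nonneg
  refine (key (ε / (m.real univ + 1)) (by positivity)).trans ?_
  have : ε / (m.real univ + 1) * m.real univ ≤ ε := by
    rw [div_mul_eq_mul_div, div_le_iff₀ (by positivity)]
    nlinarith
  linarith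

/-- the positive functional defining the compensation of `μ` -/
noncomputable def Lamp (h1 : ∀ n, ∑ i, g n i = 1) (h2 : ∀ n i x, 0 ≤ g n i x) (hg : Fine g)
    (μ : RegSignedMeasure K) : CompactlySupportedContinuousMap K ℝ →ₚ[ℝ] ℝ :=
  PositiveLinearMap.mk₀
    { toFun := fun f => Lam g (pairing μ) f.toContinuousMap
      map_add' := fun f₁ f₂ => Lam_add h1 h2 hg μ _ _
      map_smul' := fun c f => Lam_smul h1 h2 hg μ c _ }
    (fun f hf => Lam_nonneg h1 h2 hg μ _ fun x => hf x)

/-- the compensation of `μ`, as a measure -/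
noncomputable def nu (h1 : ∀ n, ∑ i, g n i = 1) (h2 : ∀ n i x, 0 ≤ g n i x) (hg : Fine g)
    (μ : RegSignedMeasure K) : Measure K := RealRMK.rieszMeasure (Lamp h1 h2 hg μ)

instance (h1 : ∀ n, ∑ i, g n i = 1) (h2 : ∀ n i x, 0 ≤ g n i x) (hg : Fine g)
    (μ : RegSignedMeasure K) : IsFiniteMeasure (nu h1 h2 hg μ) := by
  unfold nu; infer_instance

instance (h1 : ∀ n, ∑ i, g n i = 1) (h2 : ∀ n i x, 0 ≤ g n i x) (hg : Fine g)
    (μ : RegSignedMeasure K) : (nu h1 h2 hg μ).Regular := by
  unfold nu; infer_instance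

theorem integral_nu (h1 : ∀ n, ∑ i, g n i = 1) (h2 : ∀ n i x, 0 ≤ g n i x) (hg : Fine g)
    (μ : RegSignedMeasure K) (f : C(K, ℝ)) :
    ∫ x, f x ∂(nu h1 h2 hg μ) = Lam g (pairing μ) f :=
  RealRMK.integral_rieszMeasure (Lamp h1 h2 hg μ)
    ⟨f, HasCompactSupport.of_compactSpace f⟩

theorem toJordanDecomposition_toSigned {X : Type*} [MeasurableSpace X] (ν : Measure X)
    [IsFiniteMeasure ν] : ν.toSignedMeasure.toJordanDecomposition =
      ⟨ν, 0, Measure.MutuallySingular.zero_right⟩ := by
  apply SignedMeasure.toJordanDecomposition_eq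
  simp [JordanDecomposition.toSignedMeasure]

theorem totalVariation_toSigned {X : Type*} [MeasurableSpace X] (ν : Measure X)
    [IsFiniteMeasure ν] : ν.toSignedMeasure.totalVariation = ν := by
  rw [SignedMeasure.totalVariation, toJordanDecomposition_toSigned, add_zero]

theorem measure_le_of_nonneg {μ ν : Measure K} [IsFiniteMeasure μ] [IsFiniteMeasure ν]
    [ν.OuterRegular] (h : ∀ f : C(K, ℝ), (∀ x, 0 ≤ f x) → ∫ x, f x ∂μ ≤ ∫ x, f x ∂ν)
    {C : Set K} (hC : IsCompact C) : μ C ≤ ν C := by
  refine ENNReal.le_of_forall_pos_le_add fun ε hε hν => ?_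
  have hνK : ν C ≠ ⊤ := hν.ne
  have hμK : μ C ≠ ⊤ := hC.measure_lt_top.ne
  obtain ⟨V, pV1, pV2, pV3⟩ : ∃ V ⊇ C, IsOpen V ∧ ν V ≤ ν C + ε :=
    exists_isOpen_le_add C ν (ne_of_gt (ENNReal.coe_lt_coe.mpr hε))
  suffices μ.real C ≤ ν.real C + ε by
    rwa [← ENNReal.toReal_le_toReal, ENNReal.toReal_add, ENNReal.coe_toReal]
    all_goals finiteness
  obtain ⟨f, hf1, hf2, -, hf3⟩ := exists_continuous_one_zero_of_isCompact hC
    (pV2.isClosed_compl) (disjoint_compl_right_iff_subset.2 pV1)
  have hfV (x : K) : f x ≤ V.indicator 1 x := by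
    by_cases hx : x ∈ V
    · simp [hx, (hf3 x).2]
    · simp [hx, hf2 hx]
  have hfK (x : K) : C.indicator 1 x ≤ f x := by
    by_cases hx : x ∈ C
    · simp [hx, hf1 hx]
    · simp [hx, (hf3 x).1]
  calc
    μ.real C = ∫ x, C.indicator 1 x ∂μ := integral_indicator_one hC.measurableSet |>.symm
    _ ≤ ∫ x, f x ∂μ := by
      refine integral_mono ?_ (integrable_cont μ f) hfK
      exact (continuousOn_const.integrableOn_compact hC).integrable_indicator hC.measurableSet
    _ ≤ ∫ x, f x ∂ν := h f fun x => (hf3 x).1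
    _ ≤ ∫ x, V.indicator 1 x ∂ν := by
      refine integral_mono (integrable_cont ν f) ?_ hfV
      exact IntegrableOn.integrable_indicator integrableOn_const pV2.measurableSet
    _ ≤ (ν C).toReal + ↑ε := by
      rwa [integral_indicator_one pV2.measurableSet, measureReal_def,
        ← ENNReal.coe_toReal, ← ENNReal.toReal_add, ENNReal.toReal_le_toReal]
      all_goals finiteness

theorem nu_le [MetrizableSpace K] (h1 : ∀ n, ∑ i, g n i = 1) (h2 : ∀ n i x, 0 ≤ g n i x)
    (hg : Fine g) (μ : RegSignedMeasure K) :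
    nu h1 h2 hg μ ≤ μ.1.toJordanDecomposition.posPart := by
  rw [Measure.le_iff]
  intro s hs
  rw [hs.measure_eq_iSup_isCompact_of_ne_top (measure_ne_top _ _)]
  refine iSup_le fun C => iSup_le fun hC => iSup_le fun hC' => ?_
  refine (measure_le_of_nonneg (fun f hf => ?_) hC').trans (measure_mono hC)
  exact (integral_nu h1 h2 hg μ f).trans_le (Lam_le h1 h2 hg μ _ hf)

theorem nu_univ (h1 : ∀ n, ∑ i, g n i = 1) (h2 : ∀ n i x, 0 ≤ g n i x)
    (hg : Fine g) (μ : RegSignedMeasure K) :
    (nu h1 h2 hg μ).real univ = max (μ.1 univ) 0 := by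
  rw [← pairing_one, ← Lam_one h1 h2 hg μ, ← integral_nu h1 h2 hg μ 1]
  simp

omit [Nonempty K] in
theorem admits_of_metrizable [MetrizableSpace K] :
    AdmitsCompensation (univ : Set (RegSignedMeasure K)) := by
  rcases isEmpty_or_nonempty K with hK | hK
  · have hz : (0 : SignedMeasure K).totalVariation.Regular := by
      rw [SignedMeasure.totalVariation_zero]; infer_instance
    refine ⟨fun _ => ⟨0, hz⟩, continuous_const, fun μ => Or.inr ⟨?_, rfl⟩⟩
    rw [univ_eq_empty_iff.2 hK]
    simp
  · obtain ⟨N, g, h1, h2, hg⟩ := exists_fine (K := K)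
    have hreg : ∀ μ : RegSignedMeasure K,
        (nu h1 h2 hg μ).toSignedMeasure.totalVariation.Regular := fun μ => by
      rw [totalVariation_toSigned]; infer_instance
    refine ⟨fun μ => ⟨(nu h1 h2 hg μ.1).toSignedMeasure, hreg μ.1⟩, ?_, fun μ => ?_⟩
    · refine continuous_of_pairing fun f => ?_
      have : ∀ μ : RegSignedMeasure K,
          pairing ⟨(nu h1 h2 hg μ).toSignedMeasure, hreg μ⟩ f = Lam g (pairing μ) f := fun μ => by
        rw [← integral_nu h1 h2 hg μ f]
        unfold pairing
        rw [toJordanDecomposition_toSigned]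
        simp
      simp only [this]
      exact (continuous_Lam h1 h2 hg f).comp continuous_subtype_val
    · have hu := nu_univ h1 h2 hg μ.1
      rcases lt_or_ge 0 (μ.1.1 univ) with h0 | h0
      · refine Or.inl ⟨h0, Measure.zero_le_toSignedMeasure _, ?_, ?_⟩
        · exact (Measure.toSignedMeasure_le_toSignedMeasure_iff _ _).2 (nu_le h1 h2 hg μ.1)
        · rw [Measure.toSignedMeasure_apply_measurable MeasurableSet.univ, hu, max_eq_left h0.le]
      · refine Or.inr ⟨h0, ?_⟩
        rw [max_eq_right h0] at hu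
        have : nu h1 h2 hg μ.1 = 0 := by
          rw [← Measure.measure_univ_eq_zero]
          exact (measureReal_eq_zero_iff (measure_ne_top _ _)).1 hu
        show (nu h1 h2 hg μ.1).toSignedMeasure = 0
        rw [Measure.toSignedMeasure_congr this, Measure.toSignedMeasure_zero]

end Construction

section Metrizability

variable {K : Type*} [TopologicalSpace K] [CompactSpace K] [T2Space K]

theorem exists_countable_dep (F : K × K × K → ℝ) (hF : Continuous F) :
    ∃ D : Set C(K, ℝ), D.Countable ∧ ∀ p q : K × K × K,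
      (∀ f ∈ D, f p.1 = f q.1 ∧ f p.2.1 = f q.2.1 ∧ f p.2.2 = f q.2.2) → F p = F q := by
  have key : ∀ n : ℕ, ∃ D : Set C(K, ℝ), D.Finite ∧ ∀ p q : K × K × K,
      (∀ f ∈ D, f p.1 = f q.1 ∧ f p.2.1 = f q.2.1 ∧ f p.2.2 = f q.2.2) →
        |F p - F q| < 1 / ((n : ℝ) + 1) := by
    intro n
    set C : Set ((K × K × K) × (K × K × K)) := {r | 1 / ((n : ℝ) + 1) ≤ |F r.1 - F r.2|} with hC
    have hCc : IsCompact C := by
      apply IsClosed.isCompact
      exact isClosed_le continuous_const
        ((hF.comp continuous_fst).sub (hF.comp continuous_snd)).abs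
    set O : C(K, ℝ) → Set ((K × K × K) × (K × K × K)) := fun f =>
      {r | f r.1.1 ≠ f r.2.1 ∨ f r.1.2.1 ≠ f r.2.2.1 ∨ f r.1.2.2 ≠ f r.2.2.2} with hO
    have hOo : ∀ f, IsOpen (O f) := by
      intro f
      have e : O f = {r | f r.1.1 ≠ f r.2.1} ∪ ({r | f r.1.2.1 ≠ f r.2.2.1} ∪
          {r | f r.1.2.2 ≠ f r.2.2.2}) := rfl
      rw [e]
      refine (isOpen_ne_fun ?_ ?_).union ((isOpen_ne_fun ?_ ?_).union (isOpen_ne_fun ?_ ?_)) <;>
        fun_prop
    have hcov : C ⊆ ⋃ f, O f := by
      intro r hr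
      have hne : r.1 ≠ r.2 := by
        intro h
        have h1 : 1 / ((n : ℝ) + 1) ≤ |F r.1 - F r.2| := hr
        rw [h, sub_self, abs_zero] at h1
        have : (0 : ℝ) < 1 / ((n : ℝ) + 1) := by positivity
        linarith
      have sep : ∀ a b : K, a ≠ b → ∃ f : C(K, ℝ), f a ≠ f b := by
        intro a b hab
        obtain ⟨f, h0, h1, -⟩ := exists_continuous_zero_one_of_isClosed (isClosed_singleton (x := a))
          (isClosed_singleton (x := b)) (disjoint_singleton.2 hab)
        refine ⟨f, ?_⟩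
        rw [h0 (mem_singleton a), h1 (mem_singleton b)]
        simp
      rw [mem_iUnion]
      by_contra hcon
      push Not at hcon
      apply hne
      have hcon' : ∀ f : C(K, ℝ), f r.1.1 = f r.2.1 ∧ f r.1.2.1 = f r.2.2.1 ∧
          f r.1.2.2 = f r.2.2.2 := by
        intro f
        have := hcon f
        simp only [hO, mem_setOf_eq, not_or, not_not, ne_eq] at this
        exact this
      refine Prod.ext ?_ (Prod.ext ?_ ?_)
      · by_contra h
        obtain ⟨f, hf⟩ := sep _ _ h
        exact hf (hcon' f).1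
      · by_contra h
        obtain ⟨f, hf⟩ := sep _ _ h
        exact hf (hcon' f).2.1
      · by_contra h
        obtain ⟨f, hf⟩ := sep _ _ h
        exact hf (hcon' f).2.2
    obtain ⟨t, ht⟩ := hCc.elim_finite_subcover O hOo hcov
    refine ⟨t, t.finite_toSet, fun p q h => ?_⟩
    by_contra hcon
    push Not at hcon
    have hr : (p, q) ∈ C := hcon
    obtain ⟨f, hf, hf'⟩ := mem_iUnion₂.1 (ht hr)
    have h1 := h f hf
    rcases hf' with h2 | h2 | h2
    · exact h2 h1.1
    · exact h2 h1.2.1
    · exact h2 h1.2.2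
  choose D hD1 hD2 using key
  refine ⟨⋃ n, D n, countable_iUnion fun n => (hD1 n).countable, fun p q h => ?_⟩
  have h0 : ∀ n : ℕ, |F p - F q| < 1 / ((n : ℝ) + 1) := fun n =>
    hD2 n p q fun f hf => h f (mem_iUnion.2 ⟨n, hf⟩)
  by_contra hne
  have hpos : 0 < |F p - F q| := abs_pos.2 (sub_ne_zero.2 hne)
  obtain ⟨n, hn⟩ := exists_nat_one_div_lt hpos
  exact absurd (h0 n) (not_lt.2 hn.le)

/-- The closing-off argument. -/
theorem metrizable_of_family (F : C(K, ℝ) → K × K × K → ℝ) (hF : ∀ f, Continuous (F f))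
    (φ : K → K → K → ℝ)
    (hφ : ∀ f x y z, F f (x, y, z) = φ x y z * f x + (1 - φ x y z) * f y)
    (h1 : ∀ f x y, F f (x, y, x) = f y) (h2 : ∀ f x y, F f (x, y, y) = f x) :
    MetrizableSpace K := by
  classical
  choose D hD1 hD2 using fun f => exists_countable_dep (F f) (hF f)
  -- open sets given by finitely many rational constraints
  let U : Set (C(K, ℝ) × ℚ × ℚ) → Set K := fun t => {z | ∀ r ∈ t, (r.2.1 : ℝ) < r.1 z ∧
    r.1 z < (r.2.2 : ℝ)}
  have hG : ∀ t : Set (C(K, ℝ) × ℚ × ℚ), ∃ G : C(K, ℝ), (∃ x ∈ U t, ∃ y ∈ U t, x ≠ y) →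
      ∃ x ∈ U t, ∃ y ∈ U t, G x ≠ G y := by
    intro t
    by_cases h : ∃ x ∈ U t, ∃ y ∈ U t, x ≠ y
    · obtain ⟨a, ha, b, hb, hab⟩ := h
      obtain ⟨f, h0, h1, -⟩ := exists_continuous_zero_one_of_isClosed (isClosed_singleton (x := a))
        (isClosed_singleton (x := b)) (disjoint_singleton.2 hab)
      refine ⟨f, fun _ => ⟨a, ha, b, hb, ?_⟩⟩
      rw [h0 (mem_singleton a), h1 (mem_singleton b)]
      simp
    · exact ⟨0, fun h' => absurd h' h⟩
  choose G hG using hG
  let step : Set C(K, ℝ) → Set C(K, ℝ) := fun A => A ∪ (⋃ f ∈ A, D f) ∪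
    G '' {t | t.Finite ∧ t ⊆ A ×ˢ univ}
  let A : ℕ → Set C(K, ℝ) := fun n => Nat.rec ∅ (fun _ B => step B) n
  have hA0 : A 0 = ∅ := rfl
  have hAs : ∀ n, A (n + 1) = step (A n) := fun n => rfl
  have hAc : ∀ n, (A n).Countable := by
    intro n
    induction n with
    | zero => rw [hA0]; exact countable_empty
    | succ n ih =>
      rw [hAs]
      refine ((ih.union (ih.biUnion fun f _ => hD1 f))).union ?_
      refine (countable_setOf_finite_subset ?_).image _
      exact ih.prod countable_univ
  have hAm : Monotone A := monotone_nat_of_le_succ fun n => by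
    rw [hAs]
    exact (subset_union_left.trans subset_union_left)
  set B : Set C(K, ℝ) := ⋃ n, A n with hB
  have hBc : B.Countable := countable_iUnion hAc
  have hBD : ∀ f ∈ B, D f ⊆ B := by
    intro f hf e he
    obtain ⟨n, hn⟩ := mem_iUnion.1 hf
    refine mem_iUnion.2 ⟨n + 1, ?_⟩
    rw [hAs]
    exact Or.inl (Or.inr (mem_biUnion hn he))
  have hBG : ∀ t : Set (C(K, ℝ) × ℚ × ℚ), t.Finite → t ⊆ B ×ˢ univ → G t ∈ B := by
    intro t ht htB
    have : ∃ n, t ⊆ A n ×ˢ univ := by
      have e : B ×ˢ (univ : Set (ℚ × ℚ)) = ⋃ n, A n ×ˢ univ := by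
        rw [hB, iUnion_prod_const]
      rw [e] at htB
      have hdir : Directed (· ⊆ ·) fun n => A n ×ˢ (univ : Set (ℚ × ℚ)) :=
        (Monotone.directed_le fun m n hmn => prod_mono (hAm hmn) le_rfl)
      have := hdir.exists_mem_subset_of_finset_subset_biUnion (s := ht.toFinset)
        (by rwa [ht.coe_toFinset])
      rwa [ht.coe_toFinset] at this
    obtain ⟨n, hn⟩ := this
    refine mem_iUnion.2 ⟨n + 1, ?_⟩
    rw [hAs]
    exact Or.inr ⟨t, ⟨ht, hn⟩, rfl⟩
  -- the family `B` separates points
  have hsep : ∀ x y : K, (∀ f ∈ B, f x = f y) → x = y := by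
    intro x y hxy
    by_contra hne
    set Q : Set K := {z | ∀ f ∈ B, f z = f x} with hQ
    have hxQ : x ∈ Q := fun f _ => rfl
    have hyQ : y ∈ Q := fun f hf => (hxy f hf).symm
    have claimA : ∀ a ∈ Q, ∀ b ∈ Q, a ≠ b → a ∉ closure Qᶜ := by
      intro a ha b hb hab hcl
      have h3 : ∀ p ∈ Qᶜ, φ b p a = 0 := by
        intro p hp
        have : ∃ f ∈ B, f p ≠ f x := by
          by_contra hcon
          push Not at hcon
          exact hp hcon
        obtain ⟨f, hf, hfp⟩ := this
        have h4 : F f (b, p, a) = F f (a, p, a) := by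
          apply hD2 f
          intro e he
          have heB := hBD f hf he
          exact ⟨(hb e heB).trans (ha e heB).symm, rfl, rfl⟩
        rw [h1, hφ] at h4
        have h5 : φ b p a * (f b - f p) = 0 := by linarith
        rcases mul_eq_zero.1 h5 with h6 | h6
        · exact h6
        · exact absurd (by rw [← hb f hf]; linarith) hfp
      have h4 : ∀ g : C(K, ℝ), g a = g b := by
        intro g
        have h5 : Qᶜ ⊆ {p | F g (b, p, a) = g p} := by
          intro p hp
          show F g (b, p, a) = g p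
          rw [hφ, h3 p hp]
          ring
        have h6 : IsClosed {p | F g (b, p, a) = g p} :=
          isClosed_eq ((hF g).comp (by fun_prop)) g.continuous
        have h7 := closure_minimal h5 h6 hcl
        have h8 : F g (b, a, a) = g a := h7
        rw [h2] at h8
        exact h8.symm
      obtain ⟨f, h5, h6, -⟩ := exists_continuous_zero_one_of_isClosed
        (isClosed_singleton (x := a)) (isClosed_singleton (x := b)) (disjoint_singleton.2 hab)
      have h7 := h4 f
      rw [h5 (mem_singleton a), h6 (mem_singleton b)] at h7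
      simp at h7
    have hQo : IsOpen Q := by
      rw [isOpen_iff_mem_nhds]
      intro a ha
      have h3 : a ∉ closure Qᶜ := by
        by_cases hax : a = x
        · exact claimA a ha y hyQ (by rw [hax]; exact hne)
        · exact claimA a ha x hxQ hax
      rw [mem_closure_iff_nhds] at h3
      push Not at h3
      obtain ⟨W, hW, hW'⟩ := h3
      refine mem_of_superset hW ?_
      intro z hz
      by_contra hzQ
      exact (Set.eq_empty_iff_forall_notMem.1 hW') z ⟨hz, hzQ⟩
    set I : Set (C(K, ℝ) × ℚ × ℚ) := {r | r.1 ∈ B ∧ (r.2.1 : ℝ) < r.1 x ∧ r.1 x < (r.2.2 : ℝ)}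
      with hI
    let V : C(K, ℝ) × ℚ × ℚ → Set K := fun r => {z | r.1 z < (r.2.1 : ℝ)} ∪ {z | (r.2.2 : ℝ) < r.1 z}
    have hVo : ∀ r, IsOpen (V r) := fun r =>
      (isOpen_lt r.1.continuous continuous_const).union
        (isOpen_lt continuous_const r.1.continuous)
    have hcov : Qᶜ ⊆ ⋃ r ∈ I, V r := by
      intro z hz
      have : ∃ f ∈ B, f z ≠ f x := by
        by_contra hcon
        push Not at hcon
        exact hz hcon
      obtain ⟨f, hf, hfz⟩ := this
      rcases lt_or_gt_of_ne hfz with h3 | h3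
      · obtain ⟨a, ha1, ha2⟩ := exists_rat_btwn h3
        obtain ⟨b, hb1⟩ := exists_rat_gt (f x)
        exact mem_biUnion (x := (f, a, b)) ⟨hf, ha2, hb1⟩ (Or.inl ha1)
      · obtain ⟨b, hb1, hb2⟩ := exists_rat_btwn h3
        obtain ⟨a, ha1⟩ := exists_rat_lt (f x)
        exact mem_biUnion (x := (f, a, b)) ⟨hf, ha1, hb1⟩ (Or.inr hb2)
    obtain ⟨t, htI, htf, htc⟩ := (hQo.isClosed_compl.isCompact).elim_finite_subcover_image
      (fun r _ => hVo r) hcov
    have hUQ : U t ⊆ Q := by
      intro z hz
      by_contra hzQ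
      obtain ⟨r, hr, hr'⟩ := mem_iUnion₂.1 (htc hzQ)
      have h3 := hz r hr
      rcases hr' with h4 | h4
      · exact lt_asymm h4 h3.1
      · exact lt_asymm h4 h3.2
    have hQU : Q ⊆ U t := by
      intro z hz r hr
      have h3 := htI hr
      have h4 : r.1 z = r.1 x := hz r.1 h3.1
      rw [h4]
      exact h3.2
    obtain ⟨u, hu, v, hv, huv⟩ := hG t ⟨x, hQU hxQ, y, hQU hyQ, hne⟩
    have hGB : G t ∈ B := hBG t htf fun r hr => ⟨(htI hr).1, mem_univ _⟩
    exact huv ((hUQ hu (G t) hGB).trans (hUQ hv (G t) hGB).symm)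
  have := hBc.to_subtype
  let e : K → (B → ℝ) := fun x f => f.1 x
  have he : Continuous e := continuous_pi fun f => f.1.continuous
  have hinj : Function.Injective e := fun x y h => hsep x y fun f hf => congrFun h ⟨f, hf⟩
  exact (he.isClosedEmbedding hinj).isEmbedding.metrizableSpace

end Metrizability

section FromBall

variable {K : Type*} [TopologicalSpace K] [CompactSpace K] [T2Space K] [MeasurableSpace K]
  [BorelSpace K]

/-- the scalar `1/3` -/
noncomputable def third : NNReal := 3⁻¹

/-- `(δ_x + δ_y) / 3` -/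
noncomputable def am (x y : K) : Measure K := third • (Measure.dirac x + Measure.dirac y)

/-- `δ_z / 3` -/
noncomputable def bm (z : K) : Measure K := third • Measure.dirac z

noncomputable instance (x y : K) : IsFiniteMeasure (am x y) := by unfold am; infer_instance

noncomputable instance (z : K) : IsFiniteMeasure (bm z) := by unfold bm; infer_instance

theorem innerRegular_of_le_three {m : Measure K} (x y z : K)
    (hm : m ≤ am x y + bm z) : m.Regular := by
  have : IsFiniteMeasure m := isFiniteMeasure_of_le _ hm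
  have h : m.InnerRegular := by
    constructor
    intro s hs r hr
    classical
    refine ⟨s ∩ {x, y, z}, inter_subset_left, ?_, ?_⟩
    · exact ((Set.toFinite {x, y, z}).subset inter_subset_right).isCompact
    · have h1 : m (s ∩ {x, y, z}ᶜ) = 0 := by
        have hms : MeasurableSet ({x, y, z}ᶜ : Set K) := (Set.toFinite {x, y, z}).measurableSet.compl
        refine le_antisymm (((measure_mono inter_subset_right).trans (hm _)).trans ?_) (by simp)
        simp [am, bm, Measure.dirac_apply' _ hms]
      have h2 : m s ≤ m (s ∩ {x, y, z}) + m (s ∩ {x, y, z}ᶜ) := by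
        conv_lhs => rw [← inter_union_compl s {x, y, z}]
        exact measure_union_le _ _
      rw [h1, add_zero] at h2
      exact hr.trans_le h2
  infer_instance

/-- the signed measure `(δ_x + δ_y - δ_z) / 3` -/
noncomputable def sm (x y z : K) : SignedMeasure K :=
  (am x y).toSignedMeasure - (bm z).toSignedMeasure

theorem sm_jordan (x y z : K) : (sm x y z).toJordanDecomposition =
    Measure.jordanDecompositionOfToSignedMeasureSub (am x y) (bm z) :=
  Measure.toJordanDecomposition_toSignedMeasure_sub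

theorem sm_tv_le (x y z : K) : (sm x y z).totalVariation ≤ am x y + bm z := by
  rw [SignedMeasure.totalVariation, sm_jordan]
  exact add_le_add Measure.sub_le Measure.sub_le

/-- `(δ_x + δ_y - δ_z) / 3` as an element of `𝓜(K)` -/
noncomputable def rsm (x y z : K) : RegSignedMeasure K :=
  ⟨sm x y z, innerRegular_of_le_three x y z (sm_tv_le x y z)⟩

theorem rsm_mem (x y z : K) : rsm x y z ∈ unitBall K := by
  show (sm x y z).totalVariation univ ≤ 1
  refine (sm_tv_le x y z univ).trans ?_
  simp only [am, bm, Measure.coe_add, Pi.add_apply, Measure.smul_apply, measure_univ]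
  show third • (1 + 1 : ENNReal) + third • (1 : ENNReal) ≤ 1
  rw [ENNReal.smul_def, ENNReal.smul_def, smul_eq_mul, smul_eq_mul, ← mul_add]
  have : (third : ENNReal) = 3⁻¹ := by
    rw [third, ENNReal.coe_inv (by norm_num)]; norm_num
  rw [this]
  have h3 : (1 + 1 + 1 : ENNReal) = 3 := by norm_num
  rw [h3]
  exact (ENNReal.inv_mul_cancel (by norm_num) (by norm_num)).le

theorem pairing_sub {μ : RegSignedMeasure K} {a b : Measure K} [IsFiniteMeasure a]
    [IsFiniteMeasure b] (h : μ.1 = a.toSignedMeasure - b.toSignedMeasure) (f : C(K, ℝ)) :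
    pairing μ f = ∫ x, f x ∂a - ∫ x, f x ∂b := by
  have h1 : μ.1.toJordanDecomposition = Measure.jordanDecompositionOfToSignedMeasureSub a b := by
    rw [h]; exact Measure.toJordanDecomposition_toSignedMeasure_sub
  have h2 : a + (b - a) = b + (a - b) := by
    rw [← Measure.toSignedMeasure_eq_toSignedMeasure_iff, Measure.toSignedMeasure_add,
      Measure.toSignedMeasure_add]
    have := Measure.sub_toSignedMeasure_eq_toSignedMeasure_sub (μ := a) (ν := b)
    rw [sub_eq_sub_iff_add_eq_add] at this
    rw [this, add_comm]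
  have h3 : ∫ x, f x ∂a + ∫ x, f x ∂(b - a) = ∫ x, f x ∂b + ∫ x, f x ∂(a - b) := by
    rw [← integral_add_measure (integrable_cont _ f) (integrable_cont _ f),
      ← integral_add_measure (integrable_cont _ f) (integrable_cont _ f), h2]
  unfold pairing
  rw [h1]
  show ∫ x, f x ∂(a - b) - ∫ x, f x ∂(b - a) = _
  linarith

theorem third_coe : ((third : NNReal) : ℝ) = 1 / 3 := by
  simp [third]

theorem integral_third (m : Measure K) (f : C(K, ℝ)) :
    ∫ x, f x ∂(third • m) = (∫ x, f x ∂m) / 3 := by
  rw [integral_smul_nnreal_measure, NNReal.smul_def, third_coe, smul_eq_mul]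
  ring

theorem pairing_rsm (x y z : K) (f : C(K, ℝ)) :
    pairing (rsm x y z) f = (f x + f y - f z) / 3 := by
  rw [pairing_sub (μ := rsm x y z) (a := am x y) (b := bm z) rfl f, am, bm, integral_third,
    integral_third, integral_add_measure (integrable_cont _ f) (integrable_cont _ f),
    integral_dirac, integral_dirac, integral_dirac]
  ring

theorem rsm_univ (x y z : K) : (rsm x y z).1 univ = 1 / 3 := by
  rw [← pairing_one, pairing_rsm]
  simp

theorem continuous_rsm : Continuous fun p : K × K × K => rsm p.1 p.2.1 p.2.2 := by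
  refine continuous_of_pairing fun f => ?_
  simp only [pairing_rsm]
  fun_prop

/-- structure of the compensations of `(δ_x + δ_y - δ_z) / 3` -/
theorem comp_structure {x y z : K} {ν : RegSignedMeasure K} (h : IsCompensation ν (rsm x y z)) :
    ∃ m : Measure K, ∃ _ : IsFiniteMeasure m, ν.1 = m.toSignedMeasure ∧
      m ≤ am x y - bm z ∧ m.real univ = 1 / 3 := by
  rcases h with ⟨-, h0, h1, h2⟩ | ⟨h0, -⟩
  · have hr : 0 ≤[univ] ν.1 := (VectorMeasure.le_restrict_univ_iff_le _ _).2 h0
    have e := SignedMeasure.toMeasureOfZeroLE_toSignedMeasure ν.1 hr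
    refine ⟨ν.1.toMeasureOfZeroLE univ MeasurableSet.univ hr, inferInstance, e.symm, ?_, ?_⟩
    · rw [← e] at h1
      have h3 := (Measure.toSignedMeasure_le_toSignedMeasure_iff _ _).1 h1
      have h4 : (rsm x y z).1.toJordanDecomposition.posPart = am x y - bm z := by
        show (sm x y z).toJordanDecomposition.posPart = _
        rw [sm_jordan]; rfl
      rwa [h4] at h3
    · rw [← e, Measure.toSignedMeasure_apply_measurable MeasurableSet.univ, rsm_univ] at h2
      exact h2
  · rw [rsm_univ] at h0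
    norm_num at h0

theorem integral_of_le {x y : K} {m : Measure K} [IsFiniteMeasure m] (hm : m ≤ am x y)
    (hxy : x ≠ y) (f : C(K, ℝ)) : ∫ t, f t ∂m = m.real {x} * f x + m.real {y} * f y := by
  have h1 : m ({x} ∪ {y} : Set K)ᶜ = 0 := by
    have hms : MeasurableSet (({x} ∪ {y} : Set K)ᶜ) :=
      ((measurableSet_singleton x).union (measurableSet_singleton y)).compl
    refine le_antisymm ((hm _).trans ?_) (by simp)
    simp [am, Measure.dirac_apply' _ hms]
  have h2 : m.restrict ({x} ∪ {y}) = m := by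
    apply Measure.restrict_eq_self_of_ae_mem
    rw [ae_iff]
    exact h1
  have h3 : m.restrict ({x} ∪ {y}) = m {x} • Measure.dirac x + m {y} • Measure.dirac y := by
    rw [Measure.restrict_union (disjoint_singleton.2 hxy) (measurableSet_singleton y),
      Measure.restrict_singleton, Measure.restrict_singleton]
  have hfx : IsFiniteMeasure (m {x} • Measure.dirac x) := by
    rw [← Measure.restrict_singleton]; infer_instance
  have hfy : IsFiniteMeasure (m {y} • Measure.dirac y) := by
    rw [← Measure.restrict_singleton]; infer_instance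
  rw [← h2, h3, integral_add_measure (integrable_cont _ f) (integrable_cont _ f),
    integral_smul_measure, integral_smul_measure, integral_dirac, integral_dirac, ← h3, h2]
  rfl

theorem integral_of_le_diag {x : K} {m : Measure K} [IsFiniteMeasure m] (hm : m ≤ am x x)
    (f : C(K, ℝ)) : ∫ t, f t ∂m = m.real univ * f x := by
  have h1 : m ({x} : Set K)ᶜ = 0 := by
    have hms : MeasurableSet (({x} : Set K)ᶜ) := (measurableSet_singleton x).compl
    refine le_antisymm ((hm _).trans ?_) (by simp)
    simp [am, Measure.dirac_apply' _ hms]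
  have h2 : m.restrict {x} = m := by
    apply Measure.restrict_eq_self_of_ae_mem
    rw [ae_iff]
    exact h1
  have h3 : m {x} = m univ := by
    have := measure_add_measure_compl (μ := m) (measurableSet_singleton x)
    rwa [h1, add_zero] at this
  rw [← h2, Measure.restrict_singleton, integral_smul_measure, integral_dirac,
    ← Measure.restrict_singleton, h2, h3]
  rfl

theorem am_sub_left (x y : K) : am x y - bm x ≤ third • Measure.dirac y := by
  apply Measure.sub_le_of_le_add
  rw [am, bm, smul_add, add_comm]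

theorem am_sub_right (x y : K) : am x y - bm y ≤ third • Measure.dirac x := by
  apply Measure.sub_le_of_le_add
  rw [am, bm, smul_add]

theorem pairing_toSigned {ν : RegSignedMeasure K} {m : Measure K} [IsFiniteMeasure m]
    (h : ν.1 = m.toSignedMeasure) (f : C(K, ℝ)) : pairing ν f = ∫ t, f t ∂m := by
  unfold pairing
  rw [h, toJordanDecomposition_toSigned]
  simp

theorem metrizable_of_ball (h : AdmitsCompensation (unitBall K)) : MetrizableSpace K := by
  obtain ⟨ξ, hξc, hξ⟩ := h
  set η : K × K × K → RegSignedMeasure K := fun p =>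
    ξ ⟨rsm p.1 p.2.1 p.2.2, rsm_mem _ _ _⟩ with hη
  have hηc : Continuous η := hξc.comp (continuous_rsm.subtype_mk _)
  have hηs : ∀ x y z : K, ∃ m : Measure K, ∃ _ : IsFiniteMeasure m,
      (η (x, y, z)).1 = m.toSignedMeasure ∧ m ≤ am x y - bm z ∧ m.real univ = 1 / 3 :=
    fun x y z => comp_structure (hξ ⟨rsm x y z, rsm_mem _ _ _⟩)
  -- value on the diagonal
  have hdiag : ∀ (f : C(K, ℝ)) (x z : K), 3 * pairing (η (x, x, z)) f = f x := by
    intro f x z
    obtain ⟨m, hm, e, hle, hu⟩ := hηs x x z
    rw [pairing_toSigned e, integral_of_le_diag (hle.trans Measure.sub_le), hu]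
    ring
  have hoff : ∀ (f : C(K, ℝ)) (x y z : K), x ≠ y → 3 * pairing (η (x, y, z)) f =
      (3 * (η (x, y, z)).1 {x}) * f x + (1 - (3 * (η (x, y, z)).1 {x})) * f y := by
    intro f x y z hxy
    obtain ⟨m, hm, e, hle, hu⟩ := hηs x y z
    have h1 : ∀ g : C(K, ℝ), ∫ t, g t ∂m = m.real {x} * g x + m.real {y} * g y :=
      fun g => integral_of_le (hle.trans Measure.sub_le) hxy g
    have h2 : m.real univ = m.real {x} + m.real {y} := by
      have := h1 1
      simpa using this
    have h3 : (η (x, y, z)).1 {x} = m.real {x} := by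
      rw [e, Measure.toSignedMeasure_apply_measurable (measurableSet_singleton x)]
    rw [pairing_toSigned e, h1 f, h3]
    have h4 : m.real {y} = 1 / 3 - m.real {x} := by linarith
    rw [h4]
    ring
  refine metrizable_of_family (fun f p => 3 * pairing (η p) f)
    (fun f => continuous_const.mul ((continuous_pairing f).comp hηc))
    (fun x y z => 3 * (η (x, y, z)).1 {x}) ?_ ?_ ?_
  · intro f x y z
    by_cases hxy : x = y
    · subst hxy
      rw [hdiag]
      ring
    · exact hoff f x y z hxy
  · intro f x y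
    by_cases hxy : x = y
    · subst hxy
      exact hdiag f x x
    · obtain ⟨m, hm, e, hle, hu⟩ := hηs x y x
      have h0 : (η (x, y, x)).1 {x} = 0 := by
        rw [e, Measure.toSignedMeasure_apply_measurable (measurableSet_singleton x)]
        have : m {x} ≤ 0 := by
          refine ((hle.trans (am_sub_left x y)) _).trans ?_
          simp [Measure.dirac_apply' _ (measurableSet_singleton x), Ne.symm hxy]
        exact (measureReal_eq_zero_iff).2 (le_antisymm this (by simp))
      show 3 * pairing (η (x, y, x)) f = f y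
      rw [hoff f x y x hxy, h0]
      ring
  · intro f x y
    by_cases hxy : x = y
    · subst hxy
      exact hdiag f x x
    · obtain ⟨m, hm, e, hle, hu⟩ := hηs x y y
      have h0 : (η (x, y, y)).1 {x} = 1 / 3 := by
        rw [e, Measure.toSignedMeasure_apply_measurable (measurableSet_singleton x)]
        have h1 : m ({x}ᶜ) ≤ 0 := by
          refine ((hle.trans (am_sub_right x y)) _).trans ?_
          simp [Measure.dirac_apply' _ (measurableSet_singleton x).compl]
        have h2 : m.real ({x}ᶜ) = 0 := (measureReal_eq_zero_iff).2 (le_antisymm h1 (by simp))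
        have h3 := measureReal_add_measureReal_compl (μ := m) (measurableSet_singleton x)
        linarith
      show 3 * pairing (η (x, y, y)) f = f x
      rw [hoff f x y y hxy, h0]
      ring

end FromBall

/-- For a compact Hausdorff space `K` the following are equivalent:
* `K` admits a `B_{𝓜(K)}`-compensation function;
* `K` admits a compensation function (defined on all of `𝓜(K)`);
* `K` is metrizable. -/
theorem result (K : Type*) [TopologicalSpace K] [CompactSpace K] [T2Space K] [MeasurableSpace K]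
    [BorelSpace K] :
    List.TFAE [AdmitsCompensation (unitBall K),
      AdmitsCompensation (univ : Set (RegSignedMeasure K)), MetrizableSpace K] := by
  tfae_have 1 → 3 := metrizable_of_ball
  tfae_have 3 → 2 := fun _ => admits_of_metrizable
  tfae_have 2 → 1 := by
    rintro ⟨ξ, hξ, h⟩
    exact ⟨fun μ => ξ ⟨μ.1, mem_univ _⟩, hξ.comp (continuous_subtype_val.subtype_mk _),
      fun μ => h ⟨μ.1, mem_univ _⟩⟩
  tfae_finish

end Pool.Agent.Results.MP_f97503_an.BallCompensation
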